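import Mathlib

/-!
# G4 U UStar: the uniqueness lemma in the plane with exceptional discs

`E` is a closed set with few points, `κ` a nonnegative function outside the discs of radius `r₀ / 2` around the points of `E`.  Away from `E` it satisfies a strict maximum principle on circles of radius
`r₀ / 4` (factor `q < 1`), near `E` only the weak inequality `κ z ≤ C₁ sup κ` over points of distance at least `2 δ` from `E`; both also for `κ ‖g‖`, `g` holomorphic without zeros.  Then `κ = 0`.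

Plan.  Fix the centre `c` (`∀ e ∈ E, r₀ ≤ dist c e`), `q' = (1 + max q 0) / 2 < 1`, `k' > 0` with `max q 0 * exp k' ≤ q'`, `K : ℕ` with `C₁ * exp k' * 2⁻¹ ^ K ≤ q'` (`C₁ ≥ 0` w.l.o.g.: replace it by
`max C₁ 0`).  For `R ≥ 1` let `ER = E ∩ closedBall c (R + 3)` (finite), `Θ z = κ z * exp (- k' ‖z - c‖²) * ∏ e ∈ ER, ‖z - e‖ ^ K`, `G = {z | ∀ e ∈ E, r₀ / 2 ≤ dist z e}`.
Claim: for `z ∈ G`, `‖z - c‖ ≤ R`, and every `S ≥ 0` with `Θ w ≤ S` for all `w ∈ G`, `‖w - c‖ ≤ R + 1`: `Θ z ≤ q' S`.  Use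
`exp (- k' ‖w - c‖²) = exp (- k' ‖z - c‖²) * ‖exp (- 2 k' conj (z - c) (w - z))‖ * exp (- k' ‖w - z‖²)`.
* if `r₀ ≤ dist z e` for all `e ∈ E`: `hs` with `g w = exp (- 2 k' conj (z - c) (w - z)) * ∏ e ∈ ER, (w - e) ^ K`, without zeros on `ball z (r₀ / 2)`;
* otherwise `dist z e₀ ≤ r₀` for some `e₀`: `hm` with the same `g` but only the factors with `2 < ‖z - e‖` (without zeros on `ball z 1`).  The set `F` of the other factors is `E ∩ closedBall z 2`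
  (`‖z - c‖ ≤ R`), it contains `e₀`, `#F ≤ M`.  For the points `w` of `hm`: `‖w - e‖ ≥ 2 δ`, so `∏_F ‖z - e‖ ≤ r₀ 2 ^ (#F - 1) ≤ (r₀ / (2 δ)) (1 / δ) ^ (#F - 1) ∏_F ‖w - e‖ ≤ 1/2 ∏_F ‖w - e‖`.
So `sup` of `Θ` over `G`, `‖z - c‖ ≤ R` is at most the `sup` over `G`, `R < ‖z - c‖ ≤ R + 1`, which is at most `C₁ exp (- k' R²) ∏ e ∈ ER, (2 R + 4) ^ K` (`hb`), so
`κ c ∏ e ∈ ER, ‖c - e‖ ^ K ≤ C₁ exp (- k' R²) ∏ e ∈ ER, (2 R + 4) ^ K`.
Let `X = 2 R + 4`.  `∑ e ∈ ER, log (X / ‖c - e‖) ≤ ∑ j ∈ range (J + 1), #{e ∈ E | ‖c - e‖ ≤ X exp (- j)}`, `J = ⌈log (X / r₀)⌉₊` (the number of the `j ≥ 0` with `‖c - e‖ ≤ X exp (- j)` is at least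
`log (X / ‖c - e‖)`), and by `hfew` this is at most `ε X² / (1 - exp (-2)) + (J + 1) (C + ε)` (for radii `< 1` use the radius `1`).  With `ε` small, `R → ∞`: `κ c = 0`.
-/

set_option autoImplicit false

open Topology Filter Metric

namespace Pool.Agent.G4.U

private theorem us_wt (k : ℝ) (c z w : ℂ) :
    Real.exp (-k * ‖w - c‖ ^ 2) = Real.exp (-k * ‖z - c‖ ^ 2) *
      ‖Complex.exp (((-(2 * k) : ℝ) : ℂ) * ((starRingEnd ℂ) (z - c) * (w - z)))‖ *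
      Real.exp (-k * ‖w - z‖ ^ 2) := by
  rw [Complex.norm_exp, ← Real.exp_add, ← Real.exp_add, Complex.re_ofReal_mul]
  congr 1
  have h1 : ‖w - c‖ ^ 2 =
      ‖z - c‖ ^ 2 + 2 * ((starRingEnd ℂ) (z - c) * (w - z)).re + ‖w - z‖ ^ 2 := by
    rw [Complex.sq_norm, Complex.sq_norm, Complex.sq_norm, Complex.normSq_apply,
      Complex.normSq_apply, Complex.normSq_apply]
    simp only [Complex.sub_re, Complex.sub_im, Complex.mul_re, Complex.conj_re, Complex.conj_im]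
    ring
  rw [h1]
  ring

/-- the weighted function -/
private noncomputable def th (κ : ℂ → ℝ) (k : ℝ) (K : ℕ) (c : ℂ) (A : Finset ℂ) (w : ℂ) : ℝ :=
  κ w * Real.exp (-k * ‖w - c‖ ^ 2) * ∏ e ∈ A, ‖w - e‖ ^ K

/-- the holomorphic factor -/
private noncomputable def gg (k : ℝ) (K : ℕ) (c z : ℂ) (N : Finset ℂ) (w : ℂ) : ℂ :=
  Complex.exp (((-(2 * k) : ℝ) : ℂ) * ((starRingEnd ℂ) (z - c) * (w - z))) *
    ∏ e ∈ N, (w - e) ^ K

private theorem us_tr (κ : ℂ → ℝ) (k : ℝ) (K : ℕ) (c z w : ℂ) (A F N : Finset ℂ)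
    (hA : ∏ e ∈ A, ‖w - e‖ ^ K = (∏ e ∈ F, ‖w - e‖ ^ K) * ∏ e ∈ N, ‖w - e‖ ^ K) :
    κ w * ‖gg k K c z N w‖ * ∏ e ∈ F, ‖w - e‖ ^ K =
      th κ k K c A w * Real.exp (k * ‖z - c‖ ^ 2) * Real.exp (k * ‖w - z‖ ^ 2) := by
  unfold th gg
  rw [us_wt k c z w, hA, norm_mul, norm_prod]
  simp only [norm_pow]
  have h1 : Real.exp (-k * ‖z - c‖ ^ 2) * Real.exp (k * ‖z - c‖ ^ 2) = 1 := by
    rw [← Real.exp_add]
    simp
  have h2 : Real.exp (-k * ‖w - z‖ ^ 2) * Real.exp (k * ‖w - z‖ ^ 2) = 1 := by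
    rw [← Real.exp_add]
    simp
  generalize Real.exp (-k * ‖z - c‖ ^ 2) = a at *
  generalize Real.exp (k * ‖z - c‖ ^ 2) = a' at *
  generalize Real.exp (-k * ‖w - z‖ ^ 2) = b at *
  generalize Real.exp (k * ‖w - z‖ ^ 2) = b' at *
  generalize ‖Complex.exp (((-(2 * k) : ℝ) : ℂ) * ((starRingEnd ℂ) (z - c) * (w - z)))‖ = x
  generalize ∏ e ∈ F, ‖w - e‖ ^ K = y
  generalize ∏ e ∈ N, ‖w - e‖ ^ K = y'
  linear_combination (-(κ w * x * y * y') * b * b') * h1 - (κ w * x * y * y') * h2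

private theorem us_gg_diff (k : ℝ) (K : ℕ) (c z : ℂ) (N : Finset ℂ) :
    Differentiable ℂ (gg k K c z N) := by
  unfold gg
  fun_prop

private theorem us_gg_ne (k : ℝ) (K : ℕ) (c z : ℂ) (N : Finset ℂ) {w : ℂ}
    (h : ∀ e ∈ N, w ≠ e) : gg k K c z N w ≠ 0 := by
  unfold gg
  refine mul_ne_zero (Complex.exp_ne_zero _) ?_
  rw [Finset.prod_ne_zero_iff]
  intro e he
  exact pow_ne_zero _ (sub_ne_zero.2 (h e he))

private theorem us_th_nonneg {κ : ℂ → ℝ} (h0 : ∀ z, 0 ≤ κ z) (k : ℝ) (K : ℕ) (c : ℂ)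
    (A : Finset ℂ) (w : ℂ) : 0 ≤ th κ k K c A w := by
  unfold th
  have := h0 w
  positivity

/-- the strict inequality away from `E` -/
private theorem us_claim1 {E : Set ℂ} {r₀ q k R S : ℝ} {K : ℕ} {c z : ℂ} {A : Finset ℂ}
    {κ : ℂ → ℝ} (hr₀ : 0 < r₀) (hr1 : r₀ ≤ 1) (hk : 0 ≤ k)
    (hAE : ∀ e ∈ A, e ∈ E) (hz : ∀ e ∈ E, r₀ ≤ dist z e) (hzR : ‖z - c‖ ≤ R) (hS0 : 0 ≤ S)
    (hS : ∀ w, (∀ e ∈ E, r₀ / 2 ≤ dist w e) → ‖w - c‖ ≤ R + 1 → th κ k K c A w ≤ S)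
    (hs : ∀ g : ℂ → ℂ, DifferentiableOn ℂ g (ball z (r₀ / 2)) →
      (∀ w ∈ ball z (r₀ / 2), g w ≠ 0) → ∀ S : ℝ,
      (∀ w, dist w z = r₀ / 4 → κ w * ‖g w‖ ≤ S) → κ z * ‖g z‖ ≤ q * S) :
    th κ k K c A z ≤ q * Real.exp k * S := by
  have hA : ∀ w : ℂ, ∏ e ∈ A, ‖w - e‖ ^ K =
      (∏ e ∈ (∅ : Finset ℂ), ‖w - e‖ ^ K) * ∏ e ∈ A, ‖w - e‖ ^ K := fun w => by simp
  have h1 := hs (gg k K c z A) (us_gg_diff k K c z A).differentiableOn
    (fun w hw => us_gg_ne k K c z A fun e he hwe => by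
      have h2 := hz e (hAE e he)
      rw [hwe, mem_ball, dist_comm] at hw
      linarith)
    (S * Real.exp (k * ‖z - c‖ ^ 2) * Real.exp k) (fun w hw => by
      have h2 := us_tr κ k K c z w A ∅ A (hA w)
      rw [Finset.prod_empty, mul_one] at h2
      rw [h2]
      have h3 : th κ k K c A w ≤ S := by
        refine hS w (fun e he => ?_) ?_
        · have h4 := hz e he
          have h5 := dist_triangle z w e
          rw [dist_comm z w, hw] at h5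
          linarith
        · have h4 : ‖w - c‖ ≤ ‖w - z‖ + ‖z - c‖ := by
            have := norm_add_le (w - z) (z - c)
            rwa [sub_add_sub_cancel] at this
          rw [← dist_eq_norm w z, hw] at h4
          linarith
      have h4 : Real.exp (k * ‖w - z‖ ^ 2) ≤ Real.exp k := by
        apply Real.exp_le_exp.2
        rw [← dist_eq_norm, hw]
        have h5 : (r₀ / 4) ^ 2 ≤ 1 := by nlinarith
        nlinarith
      have h5 := Real.exp_pos (k * ‖z - c‖ ^ 2)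
      have h6 := Real.exp_pos (k * ‖w - z‖ ^ 2)
      calc th κ k K c A w * Real.exp (k * ‖z - c‖ ^ 2) * Real.exp (k * ‖w - z‖ ^ 2)
          ≤ S * Real.exp (k * ‖z - c‖ ^ 2) * Real.exp (k * ‖w - z‖ ^ 2) := by gcongr
        _ ≤ S * Real.exp (k * ‖z - c‖ ^ 2) * Real.exp k := by gcongr)
  have h2 := us_tr κ k K c z z A ∅ A (hA z)
  rw [Finset.prod_empty, mul_one] at h2
  rw [h2, sub_self, norm_zero] at h1
  have h5 := Real.exp_pos (k * ‖z - c‖ ^ 2)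
  have h6 : th κ k K c A z * Real.exp (k * ‖z - c‖ ^ 2) ≤
      (q * Real.exp k * S) * Real.exp (k * ‖z - c‖ ^ 2) := by
    calc th κ k K c A z * Real.exp (k * ‖z - c‖ ^ 2)
        = th κ k K c A z * Real.exp (k * ‖z - c‖ ^ 2) * Real.exp (k * 0 ^ 2) := by simp
      _ ≤ _ := h1
      _ = _ := by ring
  exact le_of_mul_le_mul_right h6 h5

/-- the inequality near `E` -/
private theorem us_claim2 {E : Set ℂ} {M : ℕ} {δ ρ r₀ C₁ k R S : ℝ} {K : ℕ} {c z e₀ : ℂ}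
    {A : Finset ℂ} {κ : ℂ → ℝ} (hδ : 0 < δ) (hδ' : δ ≤ 1 / 4) (hρ' : ρ ≤ 1 / 2)
    (hr₀ : 0 < r₀) (hrδ : r₀ ≤ δ) (hr : r₀ / (2 * δ) * (1 / δ) ^ M ≤ 1 / 2)
    (hk : 0 ≤ k) (h0 : ∀ z, 0 ≤ κ z)
    (hAE : ∀ e, e ∈ A ↔ e ∈ E ∧ ‖e - c‖ ≤ R + 3) (hF : (E ∩ closedBall z 2).ncard ≤ M)
    (hz : ∀ e ∈ E, r₀ / 2 ≤ dist z e) (he₀ : e₀ ∈ E) (hze : dist z e₀ ≤ r₀)
    (hzR : ‖z - c‖ ≤ R) (hS0 : 0 ≤ S)
    (hS : ∀ w, (∀ e ∈ E, r₀ / 2 ≤ dist w e) → ‖w - c‖ ≤ R + 1 → th κ k K c A w ≤ S)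
    (hm : ∀ g : ℂ → ℂ, DifferentiableOn ℂ g (ball z 1) → (∀ w ∈ ball z 1, g w ≠ 0) → ∀ S : ℝ,
      (∀ w, dist w z ≤ ρ → (∀ e ∈ E, 2 * δ ≤ dist w e) → κ w * ‖g w‖ ≤ S) →
        κ z * ‖g z‖ ≤ C₁ * S) :
    th κ k K c A z ≤ C₁ * Real.exp k * (1 / 2) ^ K * S := by
  classical
  obtain ⟨F, hFd⟩ : ∃ F, F = A.filter fun e => ‖z - e‖ ≤ 2 := ⟨_, rfl⟩
  obtain ⟨N, hNd⟩ : ∃ N, N = A.filter fun e => ¬ ‖z - e‖ ≤ 2 := ⟨_, rfl⟩
  have hA : ∀ w : ℂ, ∏ e ∈ A, ‖w - e‖ ^ K =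
      (∏ e ∈ F, ‖w - e‖ ^ K) * ∏ e ∈ N, ‖w - e‖ ^ K := fun w => by
    rw [hFd, hNd, Finset.prod_filter_mul_prod_filter_not]
  have heF : ∀ e, e ∈ F ↔ e ∈ E ∧ dist z e ≤ 2 := by
    intro e
    rw [hFd, Finset.mem_filter, hAE, dist_eq_norm]
    constructor
    · rintro ⟨⟨h1, -⟩, h2⟩
      exact ⟨h1, h2⟩
    · rintro ⟨h1, h2⟩
      refine ⟨⟨h1, ?_⟩, h2⟩
      have h3 := norm_add_le (e - z) (z - c)
      rw [sub_add_sub_cancel, norm_sub_rev e z] at h3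
      linarith
  have hFc : F.card ≤ M := by
    have h1 : (F : Set ℂ) = E ∩ closedBall z 2 := by
      ext e
      rw [Finset.mem_coe, heF, Set.mem_inter_iff, mem_closedBall, dist_comm e z]
    rw [← h1, Set.ncard_coe_finset] at hF
    exact hF
  have he₀F : e₀ ∈ F := (heF e₀).2 ⟨he₀, by linarith⟩
  have hPz : 0 < ∏ e ∈ F, ‖z - e‖ := by
    refine Finset.prod_pos fun e he => ?_
    have h1 := hz e ((heF e).1 he).1
    rw [dist_eq_norm] at h1
    linarith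
  -- the products over `F`
  have hprod : ∀ w : ℂ, (∀ e ∈ E, 2 * δ ≤ dist w e) →
      ∏ e ∈ F, ‖z - e‖ ≤ 1 / 2 * ∏ e ∈ F, ‖w - e‖ := by
    intro w hw
    rw [← Finset.mul_prod_erase F _ he₀F, ← Finset.mul_prod_erase F _ he₀F]
    have h1 : ‖z - e₀‖ ≤ r₀ / (2 * δ) * ‖w - e₀‖ := by
      have h2 := hw e₀ he₀
      rw [dist_eq_norm] at h2 hze
      have h3 : r₀ ≤ r₀ / (2 * δ) * ‖w - e₀‖ := by
        rw [div_mul_eq_mul_div, le_div_iff₀ (by positivity)]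
        gcongr
      linarith
    have h2 : ∏ e ∈ F.erase e₀, ‖z - e‖ ≤
        (1 / δ) ^ M * ∏ e ∈ F.erase e₀, ‖w - e‖ := by
      have h3 : ∏ e ∈ F.erase e₀, ‖z - e‖ ≤ ∏ e ∈ F.erase e₀, (1 / δ * ‖w - e‖) := by
        refine Finset.prod_le_prod (fun e _ => norm_nonneg _) fun e he => ?_
        have h4 := (heF e).1 (Finset.mem_of_mem_erase he)
        have h5 := hw e h4.1
        have h6 := h4.2
        rw [dist_eq_norm] at h5 h6
        have h7 : (2 : ℝ) ≤ 1 / δ * ‖w - e‖ := by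
          rw [div_mul_eq_mul_div, one_mul, le_div_iff₀ hδ]
          linarith
        linarith
      rw [Finset.prod_mul_distrib, Finset.prod_const] at h3
      refine h3.trans ?_
      have h4 : (1 / δ) ^ (F.erase e₀).card ≤ (1 / δ) ^ M := by
        refine pow_le_pow_right₀ ?_ ((Finset.card_erase_le).trans hFc)
        rw [le_div_iff₀ hδ]
        linarith
      exact mul_le_mul_of_nonneg_right h4 (Finset.prod_nonneg fun e _ => norm_nonneg _)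
    have h3 : 0 ≤ ∏ e ∈ F.erase e₀, ‖w - e‖ := Finset.prod_nonneg fun e _ => norm_nonneg _
    have h4 : 0 ≤ ∏ e ∈ F.erase e₀, ‖z - e‖ := Finset.prod_nonneg fun e _ => norm_nonneg _
    calc ‖z - e₀‖ * ∏ e ∈ F.erase e₀, ‖z - e‖
        ≤ (r₀ / (2 * δ) * ‖w - e₀‖) * ((1 / δ) ^ M * ∏ e ∈ F.erase e₀, ‖w - e‖) := by gcongr
      _ = (r₀ / (2 * δ) * (1 / δ) ^ M) * (‖w - e₀‖ * ∏ e ∈ F.erase e₀, ‖w - e‖) := by ring
      _ ≤ 1 / 2 * (‖w - e₀‖ * ∏ e ∈ F.erase e₀, ‖w - e‖) := by gcongr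
  have h1 := hm (gg k K c z N) (us_gg_diff k K c z N).differentiableOn
    (fun w hw => us_gg_ne k K c z N fun e he hwe => by
      rw [hNd, Finset.mem_filter] at he
      rw [hwe, mem_ball, dist_comm, dist_eq_norm] at hw
      apply he.2
      linarith)
    (S * Real.exp (k * ‖z - c‖ ^ 2) * Real.exp k * ((1 / 2) ^ K / ∏ e ∈ F, ‖z - e‖ ^ K))
    (fun w hw hwE => by
      have h2 := us_tr κ k K c z w A F N (hA w)
      have h3 : th κ k K c A w ≤ S := by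
        refine hS w (fun e he => ?_) ?_
        · have h4 := hwE e he
          linarith
        · have h4 : ‖w - c‖ ≤ ‖w - z‖ + ‖z - c‖ := by
            have := norm_add_le (w - z) (z - c)
            rwa [sub_add_sub_cancel] at this
          rw [← dist_eq_norm w z] at h4
          linarith
      have h4 : Real.exp (k * ‖w - z‖ ^ 2) ≤ Real.exp k := by
        apply Real.exp_le_exp.2
        rw [← dist_eq_norm]
        have h5 : dist w z ^ 2 ≤ 1 := by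
          have := dist_nonneg (x := w) (y := z)
          nlinarith
        nlinarith
      have h5 := Real.exp_pos (k * ‖z - c‖ ^ 2)
      have h6 := Real.exp_pos (k * ‖w - z‖ ^ 2)
      have h7 : κ w * ‖gg k K c z N w‖ * ∏ e ∈ F, ‖w - e‖ ^ K ≤
          S * Real.exp (k * ‖z - c‖ ^ 2) * Real.exp k := by
        rw [h2]
        calc th κ k K c A w * Real.exp (k * ‖z - c‖ ^ 2) * Real.exp (k * ‖w - z‖ ^ 2)
            ≤ S * Real.exp (k * ‖z - c‖ ^ 2) * Real.exp (k * ‖w - z‖ ^ 2) := by gcongr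
          _ ≤ S * Real.exp (k * ‖z - c‖ ^ 2) * Real.exp k := by gcongr
      have h8 := pow_le_pow_left₀ hPz.le (hprod w hwE) K
      rw [mul_pow, ← Finset.prod_pow, ← Finset.prod_pow] at h8
      have h9 : 0 < ∏ e ∈ F, ‖z - e‖ ^ K := by
        rw [Finset.prod_pow]
        exact pow_pos hPz K
      rw [← mul_div_assoc, le_div_iff₀ h9]
      have h10 : 0 ≤ κ w * ‖gg k K c z N w‖ := mul_nonneg (h0 w) (norm_nonneg _)
      calc κ w * ‖gg k K c z N w‖ * ∏ e ∈ F, ‖z - e‖ ^ K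
          ≤ κ w * ‖gg k K c z N w‖ * ((1 / 2) ^ K * ∏ e ∈ F, ‖w - e‖ ^ K) := by gcongr
        _ = (κ w * ‖gg k K c z N w‖ * ∏ e ∈ F, ‖w - e‖ ^ K) * (1 / 2) ^ K := by ring
        _ ≤ (S * Real.exp (k * ‖z - c‖ ^ 2) * Real.exp k) * (1 / 2) ^ K := by gcongr)
  have h2 := us_tr κ k K c z z A F N (hA z)
  rw [sub_self, norm_zero] at h2
  have h5 := Real.exp_pos (k * ‖z - c‖ ^ 2)
  have h9 : 0 < ∏ e ∈ F, ‖z - e‖ ^ K := by
    rw [Finset.prod_pow]
    exact pow_pos hPz K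
  have h6 : th κ k K c A z * Real.exp (k * ‖z - c‖ ^ 2) ≤
      (C₁ * Real.exp k * (1 / 2) ^ K * S) * Real.exp (k * ‖z - c‖ ^ 2) := by
    calc th κ k K c A z * Real.exp (k * ‖z - c‖ ^ 2)
        = κ z * ‖gg k K c z N z‖ * ∏ e ∈ F, ‖z - e‖ ^ K := by
          rw [h2]
          simp
      _ ≤ (C₁ * (S * Real.exp (k * ‖z - c‖ ^ 2) * Real.exp k *
            ((1 / 2) ^ K / ∏ e ∈ F, ‖z - e‖ ^ K))) * ∏ e ∈ F, ‖z - e‖ ^ K := by gcongr
      _ = _ := by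
          field_simp
  exact le_of_mul_le_mul_right h6 h5

private theorem us_max {X : Type} (f : X → ℝ) (P Q : X → Prop) {q' B B₀ : ℝ} (hq : q' < 1)
    (hB : 0 ≤ B) (hbd : ∀ x, P x → f x ≤ B₀) (hout : ∀ x, P x → ¬ Q x → f x ≤ B)
    (hin : ∀ S, 0 ≤ S → (∀ w, P w → f w ≤ S) → ∀ z, P z → Q z → f z ≤ q' * S) :
    ∀ x, P x → f x ≤ B := by
  intro x hx
  by_contra hcon
  push Not at hcon
  obtain ⟨S, hS⟩ : ∃ S, S = sSup (f '' {w | P w}) := ⟨_, rfl⟩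
  have hba : BddAbove (f '' {w | P w}) := by
    refine ⟨B₀, ?_⟩
    rintro _ ⟨w, hw, rfl⟩
    exact hbd w hw
  have hle : ∀ w, P w → f w ≤ S := by
    intro w hw
    rw [hS]
    exact le_csSup hba ⟨w, hw, rfl⟩
  have hSx := hle x hx
  have h1 : ∀ w, P w → f w ≤ max (q' * S) B := by
    intro w hw
    by_cases h2 : Q w
    · exact le_max_of_le_left (hin S (by linarith) hle w hw h2)
    · exact le_max_of_le_right (hout w hw h2)
  have h2 : S ≤ max (q' * S) B := by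
    rw [hS]
    refine csSup_le ⟨f x, x, hx, rfl⟩ ?_
    rintro _ ⟨w, hw, rfl⟩
    rw [← hS]
    exact h1 w hw
  rcases le_total (q' * S) B with h3 | h3
  · rw [max_eq_right h3] at h2
    linarith
  · rw [max_eq_left h3] at h2
    nlinarith

private theorem us_count (s : Finset ℂ) (c : ℂ) {r₀ X : ℝ} (hr₀ : 0 < r₀)
    (hs : ∀ e ∈ s, r₀ ≤ ‖c - e‖ ∧ ‖c - e‖ ≤ X) :
    ∑ e ∈ s, Real.log (X / ‖c - e‖) ≤
      ∑ j ∈ Finset.range (⌈Real.log (X / r₀)⌉₊ + 1),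
        ((s.filter fun e => ‖c - e‖ ≤ X * Real.exp (-(j : ℝ))).card : ℝ) := by
  classical
  have h1 : ∀ j : ℕ, ((s.filter fun e => ‖c - e‖ ≤ X * Real.exp (-(j : ℝ))).card : ℝ) =
      ∑ e ∈ s, if ‖c - e‖ ≤ X * Real.exp (-(j : ℝ)) then (1 : ℝ) else 0 := by
    intro j
    rw [Finset.sum_ite, Finset.sum_const_zero, add_zero, Finset.sum_const, nsmul_eq_mul, mul_one]
  rw [Finset.sum_congr rfl fun j _ => h1 j, Finset.sum_comm]
  refine Finset.sum_le_sum fun e he => ?_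
  obtain ⟨h2, h3⟩ := hs e he
  have h4 : 0 < ‖c - e‖ := by linarith
  have hX : 0 < X := by linarith
  obtain ⟨x, hx⟩ : ∃ x, x = Real.log (X / ‖c - e‖) := ⟨_, rfl⟩
  rw [← hx]
  have hx0 : 0 ≤ x := by
    rw [hx]
    exact Real.log_nonneg ((one_le_div h4).2 h3)
  have hx1 : x ≤ Real.log (X / r₀) := by
    rw [hx]
    exact Real.log_le_log (by positivity) (by gcongr)
  have h5 : Finset.range (⌊x⌋₊ + 1) ⊆ (Finset.range (⌈Real.log (X / r₀)⌉₊ + 1)).filter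
      fun j : ℕ => ‖c - e‖ ≤ X * Real.exp (-(j : ℝ)) := by
    intro j hj
    rw [Finset.mem_range] at hj
    have hj1 : j ≤ ⌊x⌋₊ := by omega
    have hj2 : (j : ℝ) ≤ x := (Nat.le_floor_iff hx0).1 hj1
    rw [Finset.mem_filter, Finset.mem_range]
    constructor
    · have h6 : ⌊x⌋₊ ≤ ⌈Real.log (X / r₀)⌉₊ :=
        (Nat.floor_le_floor hx1).trans (Nat.floor_le_ceil _)
      omega
    · have h6 : Real.exp (j : ℝ) ≤ X / ‖c - e‖ := by
        rw [← Real.exp_log (show 0 < X / ‖c - e‖ by positivity), ← hx]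
        exact Real.exp_le_exp.2 hj2
      rw [le_div_iff₀ h4] at h6
      rw [Real.exp_neg, ← div_eq_mul_inv, le_div_iff₀ (Real.exp_pos _)]
      linarith
  have h6 : ((Finset.range (⌊x⌋₊ + 1)).card : ℝ) ≤ ∑ j ∈ Finset.range
      (⌈Real.log (X / r₀)⌉₊ + 1), if ‖c - e‖ ≤ X * Real.exp (-(j : ℝ)) then (1 : ℝ) else 0 := by
    rw [Finset.sum_ite, Finset.sum_const_zero, add_zero, Finset.sum_const, nsmul_eq_mul, mul_one]
    exact_mod_cast Finset.card_le_card h5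
  rw [Finset.card_range] at h6
  have h7 := Nat.lt_floor_add_one x
  push_cast at h6
  linarith

private theorem us_geom (n : ℕ) : ∑ j ∈ Finset.range n, Real.exp (-(j : ℝ)) ^ 2 ≤ 2 := by
  have h1 : ∀ j ∈ Finset.range n, Real.exp (-(j : ℝ)) ^ 2 ≤ (1 / 2 : ℝ) ^ j := by
    intro j _
    have h2 : Real.exp (-(j : ℝ)) ^ 2 = (Real.exp (-1) ^ 2) ^ j := by
      rw [← Real.exp_nat_mul, ← Real.exp_nat_mul, ← Real.exp_nat_mul]
      congr 1
      push_cast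
      ring
    rw [h2]
    have h3 : Real.exp (-1) ^ 2 ≤ 1 / 2 := by
      have h4 : Real.exp (-1) ≤ 1 / 2 := by
        rw [Real.exp_neg, inv_eq_one_div, div_le_div_iff₀ (Real.exp_pos _) (by norm_num)]
        have := Real.add_one_le_exp (1 : ℝ)
        linarith
      have h5 := Real.exp_pos (-1)
      nlinarith
    exact pow_le_pow_left₀ (by positivity) h3 j
  refine (Finset.sum_le_sum h1).trans ?_
  have h2 := Summable.sum_le_tsum (Finset.range n) (fun i _ => by positivity)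
    summable_geometric_two
  rw [tsum_geometric_two] at h2
  exact h2

/-- the sum of the logarithms -/
private theorem us_log {E : Set ℂ} (hfin : ∀ (z : ℂ) (R : ℝ), (E ∩ closedBall z R).Finite)
    {ε C : ℝ} (hε : 0 ≤ ε) (c : ℂ)
    (hC : ∀ R : ℝ, 1 ≤ R → ((E ∩ closedBall c R).ncard : ℝ) ≤ ε * R ^ 2 + C)
    (s : Finset ℂ) (hsE : ∀ e ∈ s, e ∈ E) {r₀ X : ℝ} (hr₀ : 0 < r₀) (hX : r₀ ≤ X)
    (hs : ∀ e ∈ s, r₀ ≤ ‖c - e‖ ∧ ‖c - e‖ ≤ X) :
    ∑ e ∈ s, Real.log (X / ‖c - e‖) ≤ 2 * ε * X ^ 2 + (X / r₀ + 1) * (ε + C) := by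
  have hC0 : 0 ≤ ε + C := by
    have h1 := hC 1 le_rfl
    have h2 : (0 : ℝ) ≤ ((E ∩ closedBall c 1).ncard : ℝ) := by positivity
    linarith
  refine (us_count s c hr₀ hs).trans ?_
  have hX0 : 0 < X := by linarith
  have h1 : ∀ j ∈ Finset.range (⌈Real.log (X / r₀)⌉₊ + 1),
      ((s.filter fun e => ‖c - e‖ ≤ X * Real.exp (-(j : ℝ))).card : ℝ) ≤
        ε * X ^ 2 * Real.exp (-(j : ℝ)) ^ 2 + (ε + C) := by
    intro j _
    obtain ⟨Y, hY⟩ : ∃ Y, Y = X * Real.exp (-(j : ℝ)) := ⟨_, rfl⟩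
    have hY0 : 0 < Y := by
      rw [hY]
      positivity
    have h2 := hC (max Y 1) (le_max_right _ _)
    have h3 : (s.filter fun e => ‖c - e‖ ≤ X * Real.exp (-(j : ℝ))).card ≤
        (E ∩ closedBall c (max Y 1)).ncard := by
      rw [← Set.ncard_coe_finset]
      refine Set.ncard_le_ncard ?_ (hfin _ _)
      intro e he
      rw [Finset.mem_coe, Finset.mem_filter] at he
      refine ⟨hsE e he.1, ?_⟩
      rw [mem_closedBall, dist_comm, dist_eq_norm]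
      refine he.2.trans ?_
      rw [← hY]
      exact le_max_left _ _
    have h4 : ((s.filter fun e => ‖c - e‖ ≤ X * Real.exp (-(j : ℝ))).card : ℝ) ≤
        ((E ∩ closedBall c (max Y 1)).ncard : ℝ) := by exact_mod_cast h3
    have h5 : (max Y 1) ^ 2 ≤ Y ^ 2 + 1 := by
      rcases le_total Y 1 with h | h
      · rw [max_eq_right h]
        nlinarith
      · rw [max_eq_left h]
        linarith
    have h6 : Y ^ 2 = X ^ 2 * Real.exp (-(j : ℝ)) ^ 2 := by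
      rw [hY]
      ring
    have h7 : ε * (max Y 1) ^ 2 ≤ ε * (Y ^ 2 + 1) := mul_le_mul_of_nonneg_left h5 hε
    rw [h6] at h7
    nlinarith
  refine (Finset.sum_le_sum h1).trans ?_
  rw [Finset.sum_add_distrib, ← Finset.mul_sum, Finset.sum_const, Finset.card_range,
    nsmul_eq_mul]
  have h2 := us_geom (⌈Real.log (X / r₀)⌉₊ + 1)
  have h3 : ((⌈Real.log (X / r₀)⌉₊ + 1 : ℕ) : ℝ) ≤ X / r₀ + 1 := by
    push_cast
    have h4 : (1 : ℝ) ≤ X / r₀ := (one_le_div hr₀).2 hX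
    have h5 := Nat.ceil_lt_add_one (Real.log_nonneg h4)
    have h6 := Real.log_le_sub_one_of_pos (show 0 < X / r₀ by positivity)
    linarith
  have h4 : 0 ≤ ε * X ^ 2 := by positivity
  have h5 := mul_le_mul_of_nonneg_left h2 h4
  have h6 := mul_le_mul_of_nonneg_right h3 hC0
  linarith

/-- the limit -/
private theorem us_lim {x C k a b : ℝ} (hk : 0 < k) (hC : 0 ≤ C)
    (h : ∀ R : ℝ, 1 ≤ R → x ≤ C * Real.exp (-k * R ^ 2 + a * R + b)) : x ≤ 0 := by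
  have h1 : ∀ᶠ R : ℝ in atTop, x ≤ C * Real.exp (b - R) := by
    filter_upwards [eventually_ge_atTop (max 1 ((a + 1) / k))] with R hR
    have hR1 : 1 ≤ R := (le_max_left _ _).trans hR
    have hR2 : (a + 1) / k ≤ R := (le_max_right _ _).trans hR
    rw [div_le_iff₀ hk] at hR2
    refine (h R hR1).trans ?_
    refine mul_le_mul_of_nonneg_left (Real.exp_le_exp.2 ?_) hC
    nlinarith
  have h2 : Tendsto (fun R : ℝ => C * Real.exp (b - R)) atTop (𝓝 (C * 0)) := by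
    refine Tendsto.const_mul _ ?_
    refine Real.tendsto_exp_atBot.comp ?_
    exact tendsto_atBot_add_const_left _ b tendsto_neg_atTop_atBot |>.congr fun R => by
      show b + -R = b - R
      ring
  rw [mul_zero] at h2
  exact ge_of_tendsto h2 h1

theorem ustar {E : Set ℂ} (hE : IsClosed E) (hfin : ∀ (z : ℂ) (R : ℝ), (E ∩ closedBall z R).Finite) {M : ℕ} (hloc : ∀ z : ℂ, (E ∩ closedBall z 2).ncard ≤ M)
    (hfew : ∀ ε : ℝ, 0 < ε → ∃ C : ℝ, ∀ (z : ℂ) (R : ℝ), 1 ≤ R → ((E ∩ closedBall z R).ncard : ℝ) ≤ ε * R ^ 2 + C)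
    {δ ρ r₀ q C₁ : ℝ} (hδ : 0 < δ) (hδ' : δ ≤ 1 / 4) (hρ : 0 < ρ) (hρ' : ρ ≤ 1 / 2) (hr₀ : 0 < r₀) (hr : r₀ / (2 * δ) * (1 / δ) ^ M ≤ 1 / 2) (hq : q < 1)
    {κ : ℂ → ℝ} (h0 : ∀ z, 0 ≤ κ z) (hb : ∀ z, (∀ e ∈ E, r₀ / 2 ≤ dist z e) → κ z ≤ C₁)
    (hs : ∀ z, (∀ e ∈ E, r₀ ≤ dist z e) → ∀ g : ℂ → ℂ, DifferentiableOn ℂ g (ball z (r₀ / 2)) → (∀ w ∈ ball z (r₀ / 2), g w ≠ 0) → ∀ S : ℝ,
      (∀ w, dist w z = r₀ / 4 → κ w * ‖g w‖ ≤ S) → κ z * ‖g z‖ ≤ q * S)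
    (hm : ∀ z, (∀ e ∈ E, r₀ / 2 ≤ dist z e) → (∃ e ∈ E, dist z e ≤ r₀) → ∀ g : ℂ → ℂ, DifferentiableOn ℂ g (ball z 1) → (∀ w ∈ ball z 1, g w ≠ 0) → ∀ S : ℝ,
      (∀ w, dist w z ≤ ρ → (∀ e ∈ E, 2 * δ ≤ dist w e) → κ w * ‖g w‖ ≤ S) → κ z * ‖g z‖ ≤ C₁ * S) :
    ∀ z, (∀ e ∈ E, r₀ ≤ dist z e) → κ z = 0 := by
  intro c hc
  have hrδ : r₀ ≤ δ := by
    have h1 : (1 : ℝ) ≤ (1 / δ) ^ M := by
      refine one_le_pow₀ ?_
      rw [le_div_iff₀ hδ]
      linarith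
    have h2 : 0 < r₀ / (2 * δ) := by positivity
    have h3 : r₀ / (2 * δ) ≤ 1 / 2 := by nlinarith
    rw [div_le_div_iff₀ (by positivity) (by norm_num)] at h3
    linarith
  have hr1 : r₀ ≤ 1 := by linarith
  -- the constants
  obtain ⟨q₀, hq₀⟩ : ∃ q₀, q₀ = max q (1 / 2) := ⟨_, rfl⟩
  have hqq : q ≤ q₀ := by
    rw [hq₀]
    exact le_max_left _ _
  have hq0 : 1 / 2 ≤ q₀ := by
    rw [hq₀]
    exact le_max_right _ _
  have hq1 : q₀ < 1 := by
    rw [hq₀]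
    exact max_lt hq (by norm_num)
  obtain ⟨q', hq'⟩ : ∃ q', q' = (1 + q₀) / 2 := ⟨_, rfl⟩
  have hq'1 : q' < 1 := by linarith
  have hq'0 : q₀ < q' := by linarith
  obtain ⟨k, hkd⟩ : ∃ k, k = Real.log (q' / q₀) := ⟨_, rfl⟩
  have hk : 0 < k := by
    rw [hkd]
    exact Real.log_pos ((one_lt_div (by linarith)).2 hq'0)
  have hek : q₀ * Real.exp k = q' := by
    rw [hkd, Real.exp_log (div_pos (by linarith) (by linarith))]
    field_simp
  obtain ⟨C', hC'⟩ : ∃ C', C' = max C₁ 0 := ⟨_, rfl⟩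
  have hCC : C₁ ≤ C' := by
    rw [hC']
    exact le_max_left _ _
  have hC0 : 0 ≤ C' := by
    rw [hC']
    exact le_max_right _ _
  obtain ⟨K, hK⟩ : ∃ K : ℕ, C' * Real.exp k * (1 / 2) ^ K ≤ q' := by
    have h1 : 0 ≤ C' * Real.exp k := by positivity
    obtain ⟨K, hK⟩ := exists_pow_lt_of_lt_one (show 0 < q' / (C' * Real.exp k + 1) from
      div_pos (by linarith) (by linarith)) (show (1 / 2 : ℝ) < 1 by norm_num)
    refine ⟨K, ?_⟩
    have h2 := mul_le_mul_of_nonneg_left hK.le (show 0 ≤ C' * Real.exp k + 1 by linarith)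
    rw [mul_div_cancel₀ _ (show C' * Real.exp k + 1 ≠ 0 by linarith)] at h2
    have h3 : (0 : ℝ) ≤ (1 / 2) ^ K := by positivity
    nlinarith
  obtain ⟨ε, hεd⟩ : ∃ ε, ε = k / (16 * ((K : ℝ) + 1)) := ⟨_, rfl⟩
  have hε : 0 < ε := by
    rw [hεd]
    positivity
  have hKε : 8 * K * ε ≤ k / 2 := by
    have h1 : 16 * ((K : ℝ) + 1) * ε = k := by
      rw [hεd]
      field_simp
    nlinarith
  obtain ⟨C, hC⟩ := hfew ε hε
  -- the inequality for given `R`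
  have key : ∀ R : ℝ, 1 ≤ R → κ c ≤ C' * Real.exp (-k * R ^ 2 +
      K * (2 * ε * (2 * R + 4) ^ 2 + ((2 * R + 4) / r₀ + 1) * (ε + C))) := by
    intro R hR
    obtain ⟨A, hA⟩ : ∃ A : Finset ℂ, ∀ e, e ∈ A ↔ e ∈ E ∧ ‖e - c‖ ≤ R + 3 := by
      refine ⟨(hfin c (R + 3)).toFinset, fun e => ?_⟩
      rw [Set.Finite.mem_toFinset, Set.mem_inter_iff, mem_closedBall, dist_eq_norm]
    have hdist : ∀ w : ℂ, ‖w - c‖ ≤ R + 1 → ∀ e ∈ A, ‖w - e‖ ≤ 2 * R + 4 := by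
      intro w hw e he
      have h1 := ((hA e).1 he).2
      have h2 := norm_add_le (w - c) (c - e)
      rw [sub_add_sub_cancel, norm_sub_rev c e] at h2
      linarith
    have hprod : ∀ w : ℂ, ‖w - c‖ ≤ R + 1 →
        ∏ e ∈ A, ‖w - e‖ ^ K ≤ ∏ _e ∈ A, (2 * R + 4) ^ K := by
      intro w hw
      refine Finset.prod_le_prod (fun e _ => by positivity) fun e he => ?_
      exact pow_le_pow_left₀ (norm_nonneg _) (hdist w hw e he) K
    have hPX : 0 ≤ ∏ _e ∈ A, (2 * R + 4) ^ K :=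
      Finset.prod_nonneg fun e _ => by positivity
    have hmax := us_max (th κ k K c A)
      (fun w => (∀ e ∈ E, r₀ / 2 ≤ dist w e) ∧ ‖w - c‖ ≤ R + 1) (fun w => ‖w - c‖ ≤ R)
      (B := C' * Real.exp (-k * R ^ 2) * ∏ _e ∈ A, (2 * R + 4) ^ K)
      (B₀ := C' * 1 * ∏ _e ∈ A, (2 * R + 4) ^ K) hq'1 (by positivity)
      (by
        rintro w ⟨h1, h2⟩
        unfold th
        have h3 : Real.exp (-k * ‖w - c‖ ^ 2) ≤ 1 := by
          apply Real.exp_le_one_iff.2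
          have := sq_nonneg ‖w - c‖
          nlinarith
        have h4 := hprod w h2
        have h5 : κ w ≤ C' := (hb w h1).trans hCC
        have h6 := h0 w
        have h7 : 0 ≤ ∏ e ∈ A, ‖w - e‖ ^ K := Finset.prod_nonneg fun e _ => by positivity
        gcongr)
      (by
        rintro w ⟨h1, h2⟩ h8
        unfold th
        have h3 : Real.exp (-k * ‖w - c‖ ^ 2) ≤ Real.exp (-k * R ^ 2) := by
          apply Real.exp_le_exp.2
          push Not at h8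
          have h9 : R ^ 2 ≤ ‖w - c‖ ^ 2 := by
            have : 0 ≤ R := by linarith
            gcongr
          nlinarith
        have h4 := hprod w h2
        have h5 : κ w ≤ C' := (hb w h1).trans hCC
        have h6 := h0 w
        have h7 : 0 ≤ ∏ e ∈ A, ‖w - e‖ ^ K := Finset.prod_nonneg fun e _ => by positivity
        gcongr)
      (by
        rintro S hS0 hS z ⟨hz, -⟩ hzR
        by_cases hcase : ∀ e ∈ E, r₀ ≤ dist z e
        · have h1 := us_claim1 hr₀ hr1 hk.le (fun e he => ((hA e).1 he).1) hcase hzR hS0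
            (fun w h1 h2 => hS w ⟨h1, h2⟩) (hs z hcase)
          refine h1.trans ?_
          rw [← hek]
          have := Real.exp_pos k
          gcongr
        · push Not at hcase
          obtain ⟨e₀, he₀, hze⟩ := hcase
          have h1 := us_claim2 hδ hδ' hρ' hr₀ hrδ hr hk.le h0 hA (hloc z) hz he₀ hze.le hzR hS0
            (fun w h1 h2 => hS w ⟨h1, h2⟩) (hm z hz ⟨e₀, he₀, hze.le⟩)
          refine h1.trans ?_
          refine mul_le_mul_of_nonneg_right (le_trans ?_ hK) hS0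
          have := Real.exp_pos k
          gcongr)
      c ⟨fun e he => by linarith [hc e he], by simp; linarith⟩
    -- division
    unfold th at hmax
    rw [sub_self, norm_zero, zero_pow two_ne_zero, mul_zero, Real.exp_zero, mul_one] at hmax
    have hpos : ∀ e ∈ A, 0 < ‖c - e‖ := by
      intro e he
      have h1 := hc e ((hA e).1 he).1
      rw [dist_eq_norm] at h1
      linarith
    have hX : 0 < 2 * R + 4 := by linarith
    have hexp : ∏ e ∈ A, ((2 * R + 4) / ‖c - e‖) ^ K =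
        Real.exp (K * ∑ e ∈ A, Real.log ((2 * R + 4) / ‖c - e‖)) := by
      rw [Finset.mul_sum, Real.exp_sum]
      refine Finset.prod_congr rfl fun e he => ?_
      rw [Real.exp_nat_mul, Real.exp_log (div_pos hX (hpos e he))]
    have h1 : κ c ≤ C' * Real.exp (-k * R ^ 2) * ∏ e ∈ A, ((2 * R + 4) / ‖c - e‖) ^ K := by
      have h2 : 0 < ∏ e ∈ A, ‖c - e‖ ^ K :=
        Finset.prod_pos fun e he => pow_pos (hpos e he) K
      have h3 : ∏ e ∈ A, ((2 * R + 4) / ‖c - e‖) ^ K =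
          (∏ _e ∈ A, (2 * R + 4) ^ K) / ∏ e ∈ A, ‖c - e‖ ^ K := by
        rw [← Finset.prod_div_distrib]
        refine Finset.prod_congr rfl fun e _ => ?_
        rw [div_pow]
      rw [h3, ← mul_div_assoc, le_div_iff₀ h2]
      exact hmax
    rw [hexp, mul_assoc, ← Real.exp_add] at h1
    refine h1.trans (mul_le_mul_of_nonneg_left (Real.exp_le_exp.2 ?_) hC0)
    have h2 := us_log hfin hε.le c (fun R hR => hC c R hR) A (fun e he => ((hA e).1 he).1) hr₀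
      (show r₀ ≤ 2 * R + 4 by linarith) (fun e he => by
        refine ⟨?_, hdist c (by simp; linarith) e he⟩
        have h2 := hc e ((hA e).1 he).1
        rwa [dist_eq_norm] at h2)
    have h3 : (0 : ℝ) ≤ K := by positivity
    have h4 := mul_le_mul_of_nonneg_left h2 h3
    linarith
  refine le_antisymm ?_ (h0 c)
  refine us_lim (k := k - 8 * K * ε) (a := 32 * K * ε + 2 * K * (ε + C) / r₀)
    (b := 32 * K * ε + K * (4 / r₀ + 1) * (ε + C)) (by linarith) hC0 fun R hR => ?_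
  refine (key R hR).trans (le_of_eq ?_)
  congr 2
  field_simp
  ring

end Pool.Agent.G4.U
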